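import Pool.Agent.K6.H58.SC.Core

set_option autoImplicit false

/-!
# Functions on integers whose primes are divided into classes
-/

open Finset

namespace Pool.Agent.K6.H58.SC

open Pool.Agent.TH445.MQ

/-- the part of `n` composed of the primes of class `i` -/
def part (c : ℕ → ℕ) (i n : ℕ) : ℕ :=
  ∏ p ∈ n.primeFactors.filter (fun p => c p = i), p ^ n.factorization p

/-- the complementary part -/
def rest (c : ℕ → ℕ) (i n : ℕ) : ℕ :=
  ∏ p ∈ n.primeFactors.filter (fun p => ¬ c p = i), p ^ n.factorization p

lemma part_mul_rest (c : ℕ → ℕ) (i : ℕ) {n : ℕ} (hn : n ≠ 0) : part c i n * rest c i n = n := by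
  unfold part rest
  rw [Finset.prod_filter_mul_prod_filter_not]
  have h := Nat.factorization_prod_pow_eq_self hn
  rw [Finsupp.prod, Nat.support_factorization] at h
  exact h

lemma prime_dvd_prod {s : Finset ℕ} {f : ℕ → ℕ} {p : ℕ} (hp : p.Prime) (hs : ∀ q ∈ s, q.Prime)
    (h : p ∣ ∏ q ∈ s, q ^ f q) : p ∈ s := by
  rw [hp.prime.dvd_finset_prod_iff] at h
  obtain ⟨q, hq, hpq⟩ := h
  have h1 := hp.dvd_of_dvd_pow hpq
  rw [Nat.prime_dvd_prime_iff_eq hp (hs q hq)] at h1
  rwa [h1]

lemma class_of_dvd_part {c : ℕ → ℕ} {i n p : ℕ} (hp : p.Prime) (h : p ∣ part c i n) : c p = i := by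
  have := prime_dvd_prod hp (fun q hq => Nat.prime_of_mem_primeFactors (mem_filter.1 hq).1) h
  exact (mem_filter.1 this).2

lemma class_of_dvd_rest {c : ℕ → ℕ} {i n p : ℕ} (hp : p.Prime) (h : p ∣ rest c i n) : c p ≠ i := by
  have := prime_dvd_prod hp (fun q hq => Nat.prime_of_mem_primeFactors (mem_filter.1 hq).1) h
  exact (mem_filter.1 this).2

lemma part_mul_self {c : ℕ → ℕ} {i u v : ℕ} (hu0 : u ≠ 0) (hv0 : v ≠ 0)
    (hu : ∀ p : ℕ, p.Prime → p ∣ u → c p = i) (hv : ∀ p : ℕ, p.Prime → p ∣ v → c p ≠ i) :
    part c i (u * v) = u := by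
  unfold part
  have h1 : (u * v).primeFactors.filter (fun p => c p = i) = u.primeFactors := by
    ext p
    rw [mem_filter, Nat.primeFactors_mul hu0 hv0, mem_union]
    constructor
    · rintro ⟨h | h, hc⟩
      · exact h
      · exact absurd hc (hv p (Nat.prime_of_mem_primeFactors h) (Nat.dvd_of_mem_primeFactors h))
    · intro h
      exact ⟨Or.inl h, hu p (Nat.prime_of_mem_primeFactors h) (Nat.dvd_of_mem_primeFactors h)⟩
  rw [h1]
  have h := Nat.factorization_prod_pow_eq_self hu0
  rw [Finsupp.prod, Nat.support_factorization] at h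
  conv_rhs => rw [← h]
  apply prod_congr rfl
  intro p hp
  congr 1
  rw [Nat.factorization_mul hu0 hv0, Finsupp.add_apply]
  have h2 : v.factorization p = 0 := by
    apply Nat.factorization_eq_zero_of_not_dvd
    intro h3
    exact hv p (Nat.prime_of_mem_primeFactors hp) h3
      (hu p (Nat.prime_of_mem_primeFactors hp) (Nat.dvd_of_mem_primeFactors hp))
  rw [h2, add_zero]

lemma part_mul_other {c : ℕ → ℕ} {i j u v : ℕ} (hu0 : u ≠ 0) (hv0 : v ≠ 0)
    (hu : ∀ p : ℕ, p.Prime → p ∣ u → c p = i) (hij : j ≠ i) :
    part c j (u * v) = part c j v := by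
  unfold part
  have h1 : (u * v).primeFactors.filter (fun p => c p = j) =
      v.primeFactors.filter (fun p => c p = j) := by
    ext p
    rw [mem_filter, mem_filter, Nat.primeFactors_mul hu0 hv0, mem_union]
    constructor
    · rintro ⟨h | h, hc⟩
      · have := hu p (Nat.prime_of_mem_primeFactors h) (Nat.dvd_of_mem_primeFactors h)
        exact absurd (hc.symm.trans this) hij
      · exact ⟨h, hc⟩
    · rintro ⟨h, hc⟩
      exact ⟨Or.inr h, hc⟩
  rw [h1]
  apply prod_congr rfl
  intro p hp
  congr 1
  rw [Nat.factorization_mul hu0 hv0, Finsupp.add_apply]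
  have h2 : u.factorization p = 0 := by
    apply Nat.factorization_eq_zero_of_not_dvd
    intro h3
    have h4 := hu p (Nat.prime_of_mem_primeFactors (mem_filter.1 hp).1) h3
    exact hij ((mem_filter.1 hp).2.symm.trans h4)
  rw [h2, zero_add]

open Classical in
/-- evaluation of a convolution of functions living on different classes -/
lemma prod_classes {R : Type*} [CommSemiring R] (c : ℕ → ℕ) (X : ℕ → ArithmeticFunction R)
    (s : Finset ℕ) (hX : ∀ i ∈ s, ∀ n, X i n ≠ 0 → ∀ p : ℕ, p.Prime → p ∣ n → c p = i) :
    ∀ n, n ≠ 0 → (∏ i ∈ s, X i) n =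
      if (∀ p : ℕ, p.Prime → p ∣ n → c p ∈ s) then ∏ i ∈ s, X i (part c i n) else 0 := by
  induction s using Finset.induction_on with
  | empty =>
    intro n hn
    rw [prod_empty, prod_empty, ArithmeticFunction.one_apply]
    by_cases h1 : n = 1
    · subst h1
      rw [if_pos rfl, if_pos]
      intro p hp h
      exact absurd (Nat.dvd_one.1 h) hp.one_lt.ne'
    · rw [if_neg h1, if_neg]
      intro h
      obtain ⟨p, hp, hpn⟩ := Nat.exists_prime_and_dvd h1
      exact absurd (h p hp hpn) (Finset.notMem_empty _)
  | insert a s ha ih =>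
    intro n hn
    have ih' := ih (fun i hi => hX i (mem_insert_of_mem hi))
    rw [prod_insert ha, prod_insert ha, ArithmeticFunction.mul_apply]
    have hn' := part_mul_rest c a hn
    have hu0 : part c a n ≠ 0 := by
      intro h; rw [h, zero_mul] at hn'; exact hn hn'.symm
    have hv0 : rest c a n ≠ 0 := by
      intro h; rw [h, mul_zero] at hn'; exact hn hn'.symm
    rw [Finset.sum_eq_single (part c a n, rest c a n)]
    · simp only
      rw [ih' _ hv0]
      have hparts : ∀ i ∈ s, part c i (rest c a n) = part c i n := by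
        intro i hi
        have hia : i ≠ a := by rintro rfl; exact ha hi
        have := part_mul_other (c := c) (i := a) (j := i) hu0 hv0
          (fun p hp h => class_of_dvd_part hp h) hia
        rw [← this, hn']
      by_cases hall : ∀ p : ℕ, p.Prime → p ∣ n → c p ∈ insert a s
      · rw [if_pos hall, if_pos]
        · congr 1
          apply prod_congr rfl
          intro i hi
          rw [hparts i hi]
        · intro p hp h
          have h1 : p ∣ n := by rw [← hn']; exact h.mul_left _
          rcases mem_insert.1 (hall p hp h1) with h2 | h2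
          · exact absurd h2 (class_of_dvd_rest hp h)
          · exact h2
      · rw [if_neg hall, if_neg, mul_zero]
        intro h
        apply hall
        intro p hp hpn
        rw [← hn', hp.dvd_mul] at hpn
        rcases hpn with h1 | h1
        · rw [class_of_dvd_part hp h1]
          exact mem_insert_self _ _
        · exact mem_insert_of_mem (h p hp h1)
    · rintro ⟨u, v⟩ huv hne
      rw [Nat.mem_divisorsAntidiagonal] at huv
      simp only at huv hne ⊢
      by_contra hc
      have hXu := left_ne_zero_of_mul hc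
      have hYv := right_ne_zero_of_mul hc
      have hu : u ≠ 0 := by rintro rfl; rw [zero_mul] at huv; exact hn huv.1.symm
      have hv : v ≠ 0 := by rintro rfl; rw [mul_zero] at huv; exact hn huv.1.symm
      rw [ih' v hv] at hYv
      have hvs : ∀ p : ℕ, p.Prime → p ∣ v → c p ∈ s := by
        by_contra h
        rw [if_neg h] at hYv
        exact hYv rfl
      have h1 : part c a (u * v) = u := part_mul_self hu hv (hX a (mem_insert_self _ _) u hXu)
        (fun p hp h => by
          intro h2
          exact ha (h2 ▸ hvs p hp h))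
      rw [huv.1] at h1
      apply hne
      have h2 : u * v = u * rest c a n :=
        calc u * v = n := huv.1
          _ = part c a n * rest c a n := hn'.symm
          _ = u * rest c a n := by rw [h1]
      rw [h1, Prod.mk.injEq]
      exact ⟨rfl, Nat.eq_of_mul_eq_mul_left (Nat.pos_of_ne_zero hu) h2⟩
    · intro h
      exact absurd (Nat.mem_divisorsAntidiagonal.2 ⟨hn', hn⟩) h

end Pool.Agent.K6.H58.SC
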