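import Pool.Agent.K6.H58.SC.Gen
import Pool.Agent.K6.H58.SC.Cls

set_option autoImplicit false

/-!
# The three forms of the theorem
-/

open Finset

namespace Pool.Agent.K6.H58.SC

open Pool.Agent.TH445.MQ

/-- `∑_{t ≤ T} |∑_{N ≤ n ≤ 2N} b n n ^ (i t)| ^ q` -/
noncomputable def SD (q : ℝ) (N T : ℕ) (b : ℕ → ℂ) : ℝ :=
  ∑ t ∈ Finset.Icc 1 T, ‖∑ n ∈ Finset.Icc N (2 * N),
    b n * Complex.exp (Complex.I * (t : ℂ) * ((Real.log (n : ℝ) : ℝ) : ℂ))‖ ^ q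

lemma SD_congr {q : ℝ} {N T : ℕ} (hN : 1 ≤ N) {b b' : ℕ → ℂ} (h : ∀ n, n ≠ 0 → b n = b' n) :
    SD q N T b = SD q N T b' := by
  unfold SD
  apply sum_congr rfl
  intro t _
  congr 2
  apply sum_congr rfl
  intro n hn
  rw [h n (by have := (mem_Icc.1 hn).1; omega)]

/-- **many short factors** -/
theorem many (q A ε : ℝ) (hq : 1 ≤ q) (hA : 1 ≤ A) (hε : 0 < ε) (hε1 : ε ≤ 1) :
    ∃ K : ℝ, ∀ N T m : ℕ, 1 ≤ N → N ≤ T → (T : ℝ) ≤ (N : ℝ) ^ A →
      (m : ℝ) ≤ (N : ℝ) ^ (ε ^ 2 / (512 * q ^ 2)) →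
      ∀ (G : ArithmeticFunction ℂ) (F : ℕ → ArithmeticFunction ℂ), (∀ n, ‖G n‖ ≤ 1) →
        (∀ n, G n ≠ 0 → n ^ (Nat.log N T + 1) ≤ T) →
        (∀ i < m, ∀ n, F i n ≠ 0 → (n : ℝ) ≤ (N : ℝ) ^ (ε ^ 2 / (512 * q ^ 2))) →
        (∀ z w n, z ≤ w → w ≤ m →
          (∏ i ∈ Ico z w, ab (F i)) n ≤ (N : ℝ) ^ (ε ^ 2 / (512 * q ^ 2))) →
        SD q N T (fun n => (G * ∏ i ∈ range m, F i) n) ≤
          K * (N : ℝ) ^ ε * ((N : ℝ) ^ q + (N : ℝ) ^ (q / 2) * (T : ℝ)) := by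
  obtain ⟨K, hK0, hK⟩ := general q A (ε / 2) hq hA (by linarith) (by linarith)
  have hq0 : 0 < q := by linarith
  have hδe : (ε / 2) ^ 2 / (128 * q ^ 2) = ε ^ 2 / (512 * q ^ 2) := by
    field_simp
    ring
  rw [hδe] at hK
  set δ := ε ^ 2 / (512 * q ^ 2) with hδ
  have hδ0 : 0 < δ := by positivity
  set κ := 30 * q ^ 2 / (ε / 2) with hκ
  have hκ0 : 0 < κ := by positivity
  refine ⟨K * 2 ^ κ, ?_⟩
  intro N T m hN hNT hTA hm G F hG hGs hF hFV
  have hN1 : (1 : ℝ) ≤ N := by exact_mod_cast hN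
  have hN0 : (0 : ℝ) < N := by linarith
  have hX1 : 1 ≤ (N : ℝ) ^ δ := Real.one_le_rpow hN1 hδ0.le
  have h := hK N T m hN hNT hTA G F ((N : ℝ) ^ δ) hX1 hG hGs hF hFV
  refine h.trans ?_
  have hZ0 : 0 ≤ (N : ℝ) ^ q + (N : ℝ) ^ (q / 2) * (T : ℝ) := by positivity
  apply mul_le_mul_of_nonneg_right _ hZ0
  have h1 : (((m : ℝ) + 1) * (N : ℝ) ^ δ) ^ κ ≤ 2 ^ κ * (N : ℝ) ^ (2 * δ * κ) := by
    calc (((m : ℝ) + 1) * (N : ℝ) ^ δ) ^ κ ≤ ((2 * (N : ℝ) ^ δ) * (N : ℝ) ^ δ) ^ κ := by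
          apply Real.rpow_le_rpow (by positivity) _ hκ0.le
          apply mul_le_mul_of_nonneg_right _ (by positivity)
          linarith
      _ = (2 * (N : ℝ) ^ (2 * δ)) ^ κ := by
          rw [mul_assoc, ← Real.rpow_add hN0]
          congr 3
          ring
      _ = 2 ^ κ * (N : ℝ) ^ (2 * δ * κ) := by
          rw [Real.mul_rpow (by norm_num) (by positivity), ← Real.rpow_mul hN0.le]
  have h2 : 2 * δ * κ ≤ ε / 2 := by
    rw [hδ, hκ]
    have : 2 * (ε ^ 2 / (512 * q ^ 2)) * (30 * q ^ 2 / (ε / 2)) = 120 / 512 * ε := by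
      field_simp
      ring
    rw [this]
    linarith
  calc K * (((m : ℝ) + 1) * (N : ℝ) ^ δ) ^ κ * (N : ℝ) ^ (ε / 2)
      ≤ K * (2 ^ κ * (N : ℝ) ^ (ε / 2)) * (N : ℝ) ^ (ε / 2) := by
        apply mul_le_mul_of_nonneg_right _ (by positivity)
        apply mul_le_mul_of_nonneg_left _ hK0
        refine h1.trans (mul_le_mul_of_nonneg_left ?_ (by positivity))
        exact Real.rpow_le_rpow_of_exponent_le hN1 h2
    _ = K * 2 ^ κ * ((N : ℝ) ^ (ε / 2) * (N : ℝ) ^ (ε / 2)) := by ring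
    _ = K * 2 ^ κ * (N : ℝ) ^ ε := by
        rw [← Real.rpow_add hN0]
        congr 2
        ring

/-! ### boundedly many arbitrary factors -/

lemma prod_le_divisors (X : ℕ → ArithmeticFunction ℝ) (s : Finset ℕ)
    (h0 : ∀ i ∈ s, ∀ n, 0 ≤ X i n) (h1 : ∀ i ∈ s, ∀ n, X i n ≤ 1) :
    ∀ n, 0 ≤ (∏ i ∈ s, X i) n ∧ (∏ i ∈ s, X i) n ≤ (n.divisors.card : ℝ) ^ s.card := by
  induction s using Finset.induction_on with
  | empty =>
    intro n
    rw [prod_empty, card_empty, pow_zero, ArithmeticFunction.one_apply]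
    split_ifs <;> norm_num
  | insert a s ha ih =>
    intro n
    have ih' := ih (fun i hi => h0 i (mem_insert_of_mem hi)) (fun i hi => h1 i (mem_insert_of_mem hi))
    rw [prod_insert ha, card_insert_of_notMem ha, ArithmeticFunction.mul_apply,
      Nat.sum_divisorsAntidiagonal (f := fun a' b => X a a' * (∏ i ∈ s, X i) b)]
    constructor
    · exact sum_nonneg fun u _ => mul_nonneg (h0 a (mem_insert_self _ _) _) (ih' _).1
    · calc ∑ u ∈ n.divisors, X a u * (∏ i ∈ s, X i) (n / u)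
          ≤ ∑ _u ∈ n.divisors, (n.divisors.card : ℝ) ^ s.card := by
            apply sum_le_sum
            intro u hu
            have hun := Nat.mem_divisors.1 hu
            have h2 : ((n / u).divisors.card : ℝ) ≤ n.divisors.card := by
              exact_mod_cast Finset.card_le_card
                (Nat.divisors_subset_of_dvd hun.2 (Nat.div_dvd_of_dvd hun.1))
            calc X a u * (∏ i ∈ s, X i) (n / u) ≤ 1 * ((n / u).divisors.card : ℝ) ^ s.card := by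
                  apply mul_le_mul (h1 a (mem_insert_self _ _) _) (ih' _).2 (ih' _).1 zero_le_one
              _ ≤ (n.divisors.card : ℝ) ^ s.card := by
                  rw [one_mul]
                  exact pow_le_pow_left₀ (Nat.cast_nonneg _) h2 _
        _ = (n.divisors.card : ℝ) ^ (s.card + 1) := by
            rw [sum_const, nsmul_eq_mul, pow_succ]
            ring

lemma prod_supp (X : ℕ → ArithmeticFunction ℝ) (s : Finset ℕ) (y : ℝ) (hy : 1 ≤ y)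
    (h : ∀ i ∈ s, ∀ n, X i n ≠ 0 → (n : ℝ) ≤ y) :
    ∀ n, (∏ i ∈ s, X i) n ≠ 0 → (n : ℝ) ≤ y ^ s.card := by
  induction s using Finset.induction_on with
  | empty =>
    intro n hn
    rw [prod_empty, ArithmeticFunction.one_apply] at hn
    split_ifs at hn with h1
    · subst h1; simp
    · exact absurd rfl hn
  | insert a s ha ih =>
    intro n hn
    have ih' := ih (fun i hi => h i (mem_insert_of_mem hi))
    rw [prod_insert ha, ArithmeticFunction.mul_apply] at hn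
    obtain ⟨⟨u, v⟩, huv, hne⟩ := exists_ne_zero_of_sum_ne_zero hn
    rw [Nat.mem_divisorsAntidiagonal] at huv
    simp only at huv hne
    have h1 := h a (mem_insert_self _ _) u (left_ne_zero_of_mul hne)
    have h2 := ih' v (right_ne_zero_of_mul hne)
    rw [← huv.1, card_insert_of_notMem ha, pow_succ, mul_comm (y ^ _)]
    push_cast
    exact mul_le_mul h1 h2 (Nat.cast_nonneg _) (by linarith)

/-- **boundedly many arbitrary short factors** -/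
theorem bounded (q A ε : ℝ) (hq : 1 ≤ q) (hA : 1 ≤ A) (hε : 0 < ε) (hε1 : ε ≤ 1) (R : ℕ) :
    ∃ K : ℝ, ∀ N T : ℕ, 1 ≤ N → N ≤ T → (T : ℝ) ≤ (N : ℝ) ^ A →
      ∀ (G : ArithmeticFunction ℂ) (F : ℕ → ArithmeticFunction ℂ), (∀ n, ‖G n‖ ≤ 1) →
        (∀ n, G n ≠ 0 → n ^ (Nat.log N T + 1) ≤ T) →
        (∀ i < R, ∀ n, ‖F i n‖ ≤ 1) →
        (∀ i < R, ∀ n, F i n ≠ 0 → (n : ℝ) ≤ (N : ℝ) ^ (ε ^ 2 / (512 * q ^ 2))) →
        SD q N T (fun n => (G * ∏ i ∈ range R, F i) n) ≤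
          K * (N : ℝ) ^ ε * ((N : ℝ) ^ q + (N : ℝ) ^ (q / 2) * (T : ℝ)) := by
  obtain ⟨K, hK0, hK⟩ := general q A (ε / 2) hq hA (by linarith) (by linarith)
  have hq0 : 0 < q := by linarith
  have hδe : (ε / 2) ^ 2 / (128 * q ^ 2) = ε ^ 2 / (512 * q ^ 2) := by
    field_simp
    ring
  rw [hδe] at hK
  set δ := ε ^ 2 / (512 * q ^ 2) with hδ
  have hδ0 : 0 < δ := by positivity
  have hδ1 : δ ≤ 1 := by
    rw [hδ, div_le_one (by positivity)]
    nlinarith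
  set κ := 30 * q ^ 2 / (ε / 2) with hκ
  have hκ0 : 0 < κ := by positivity
  set θ : ℝ := ε / (2 * ((R : ℝ) + 1) ^ 2 * κ) with hθ
  have hθ0 : 0 < θ := by positivity
  obtain ⟨Cd, hCd0, hCd⟩ := Pool.Agent.H510R2.divisor_bound θ hθ0
  set Cd' : ℝ := max Cd 1 with hCd'
  have hCd'1 : 1 ≤ Cd' := le_max_right _ _
  refine ⟨K * (((R : ℝ) + 1) * Cd' ^ R) ^ κ, ?_⟩
  intro N T hN hNT hTA G F hG hGs hF1 hF
  have hN1 : (1 : ℝ) ≤ N := by exact_mod_cast hN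
  have hN0 : (0 : ℝ) < N := by linarith
  have hX1 : 1 ≤ (N : ℝ) ^ δ := Real.one_le_rpow hN1 hδ0.le
  have hXN : (N : ℝ) ^ δ ≤ N := by
    calc (N : ℝ) ^ δ ≤ (N : ℝ) ^ (1 : ℝ) := Real.rpow_le_rpow_of_exponent_le hN1 hδ1
      _ = N := Real.rpow_one _
  set V : ℝ := (Cd' * (N : ℝ) ^ (R * θ)) ^ R with hV
  have hNθ : 1 ≤ (N : ℝ) ^ (R * θ) := Real.one_le_rpow hN1 (by positivity)
  have hbase : 1 ≤ Cd' * (N : ℝ) ^ (R * θ) := by nlinarith
  have hV1 : 1 ≤ V := one_le_pow₀ hbase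
  have hFV : ∀ z w n, z ≤ w → w ≤ R → (∏ i ∈ Ico z w, ab (F i)) n ≤ V := by
    intro z w n hz hw
    have hcard : (Ico z w).card ≤ R := by rw [Nat.card_Ico]; omega
    by_cases hn0 : (∏ i ∈ Ico z w, ab (F i)) n = 0
    · rw [hn0]; linarith
    have hn1 : 1 ≤ n := by
      rcases Nat.eq_zero_or_pos n with h | h
      · subst h; simp at hn0
      · exact h
    have hsupp := prod_supp (fun i => ab (F i)) (Ico z w) ((N : ℝ) ^ δ) hX1
      (fun i hi n hn => hF i (by have := (mem_Ico.1 hi).2; omega) n (by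
        intro h
        rw [ab_apply, h, norm_zero] at hn
        exact hn rfl)) n hn0
    have hnN : (n : ℝ) ≤ (N : ℝ) ^ (R : ℝ) := by
      calc (n : ℝ) ≤ ((N : ℝ) ^ δ) ^ (Ico z w).card := hsupp
        _ ≤ (N : ℝ) ^ (Ico z w).card := pow_le_pow_left₀ (by positivity) hXN _
        _ ≤ (N : ℝ) ^ R := pow_le_pow_right₀ hN1 hcard
        _ = (N : ℝ) ^ (R : ℝ) := (Real.rpow_natCast _ _).symm
    have hd : (n.divisors.card : ℝ) ≤ Cd' * (N : ℝ) ^ (R * θ) := by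
      calc (n.divisors.card : ℝ) ≤ Cd * (n : ℝ) ^ θ := hCd n hn1
        _ ≤ Cd' * ((N : ℝ) ^ (R : ℝ)) ^ θ := by
            apply mul_le_mul (le_max_left _ _) _ (by positivity) (by positivity)
            exact Real.rpow_le_rpow (Nat.cast_nonneg _) hnN hθ0.le
        _ = _ := by rw [← Real.rpow_mul hN0.le]
    have h1 := (prod_le_divisors (fun i => ab (F i)) (Ico z w) (fun i _ n => ab_nn _ _)
      (fun i hi n => by
        rw [ab_apply]
        exact hF1 i (by have := (mem_Ico.1 hi).2; omega) n) n).2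
    calc (∏ i ∈ Ico z w, ab (F i)) n ≤ (n.divisors.card : ℝ) ^ (Ico z w).card := h1
      _ ≤ (Cd' * (N : ℝ) ^ (R * θ)) ^ (Ico z w).card := pow_le_pow_left₀ (Nat.cast_nonneg _) hd _
      _ ≤ V := pow_le_pow_right₀ hbase hcard
  have h := hK N T R hN hNT hTA G F V hV1 hG hGs hF hFV
  refine h.trans ?_
  have hZ0 : 0 ≤ (N : ℝ) ^ q + (N : ℝ) ^ (q / 2) * (T : ℝ) := by positivity
  apply mul_le_mul_of_nonneg_right _ hZ0
  have hVe : V = Cd' ^ R * (N : ℝ) ^ ((R : ℝ) * (R * θ)) := by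
    rw [hV, mul_pow, ← Real.rpow_natCast ((N : ℝ) ^ _), ← Real.rpow_mul hN0.le]
    congr 2
    ring
  have h1 : (((R : ℝ) + 1) * V) ^ κ ≤ (((R : ℝ) + 1) * Cd' ^ R) ^ κ * (N : ℝ) ^ (ε / 2) := by
    rw [hVe, ← mul_assoc, Real.mul_rpow (by positivity) (by positivity), ← Real.rpow_mul hN0.le]
    apply mul_le_mul_of_nonneg_left _ (by positivity)
    apply Real.rpow_le_rpow_of_exponent_le hN1
    rw [hθ]
    have hR0 : (0 : ℝ) ≤ R := Nat.cast_nonneg _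
    have e1 : (R : ℝ) * (R * (ε / (2 * ((R : ℝ) + 1) ^ 2 * κ))) * κ =
        ε / 2 * ((R : ℝ) ^ 2 / ((R : ℝ) + 1) ^ 2) := by
      field_simp
    rw [e1]
    have e2 : (R : ℝ) ^ 2 / ((R : ℝ) + 1) ^ 2 ≤ 1 := by
      rw [div_le_one (by positivity)]
      nlinarith
    nlinarith
  calc K * (((R : ℝ) + 1) * V) ^ κ * (N : ℝ) ^ (ε / 2)
      ≤ K * ((((R : ℝ) + 1) * Cd' ^ R) ^ κ * (N : ℝ) ^ (ε / 2)) * (N : ℝ) ^ (ε / 2) := by
        apply mul_le_mul_of_nonneg_right _ (by positivity)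
        exact mul_le_mul_of_nonneg_left h1 hK0
    _ = K * (((R : ℝ) + 1) * Cd' ^ R) ^ κ * ((N : ℝ) ^ (ε / 2) * (N : ℝ) ^ (ε / 2)) := by ring
    _ = K * (((R : ℝ) + 1) * Cd' ^ R) ^ κ * (N : ℝ) ^ ε := by
        rw [← Real.rpow_add hN0]
        congr 2
        ring

end Pool.Agent.K6.H58.SC
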