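import Pool.Agent.K6.H58.SC.Cor

set_option autoImplicit false

/-!
# Coefficients which are multiplicative across classes of primes
-/

open Finset

namespace Pool.Agent.K6.H58.SC

open Pool.Agent.TH445.MQ

lemma part_ne_zero (c : ℕ → ℕ) (i n : ℕ) : part c i n ≠ 0 := by
  unfold part
  apply prod_ne_zero_iff.2
  intro p hp
  exact pow_ne_zero _ (Nat.prime_of_mem_primeFactors (mem_filter.1 hp).1).ne_zero

open Classical in
/-- the factors -/
noncomputable def XX (c : ℕ → ℕ) (h : ℕ → ℕ → ℂ) (P : ℕ → ℕ → Prop) (i : ℕ) : AF :=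
  ⟨fun n => if n ≠ 0 ∧ (∀ p : ℕ, p.Prime → p ∣ n → c p = i) ∧ P i n then h i n else 0, by simp⟩

open Classical in
lemma XX_apply (c : ℕ → ℕ) (h : ℕ → ℕ → ℂ) (P : ℕ → ℕ → Prop) (i n : ℕ) : XX c h P i n =
    if n ≠ 0 ∧ (∀ p : ℕ, p.Prime → p ∣ n → c p = i) ∧ P i n then h i n else 0 := rfl

lemma XX_ne {c : ℕ → ℕ} {h : ℕ → ℕ → ℂ} {P : ℕ → ℕ → Prop} {i n : ℕ} (hn : XX c h P i n ≠ 0) :
    (∀ p : ℕ, p.Prime → p ∣ n → c p = i) ∧ P i n := by
  rw [XX_apply] at hn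
  split_ifs at hn with h1
  · exact h1.2
  · exact absurd rfl hn

lemma XX_norm {c : ℕ → ℕ} {h : ℕ → ℕ → ℂ} (hh : ∀ i n, ‖h i n‖ ≤ 1) (P : ℕ → ℕ → Prop)
    (i n : ℕ) : ‖XX c h P i n‖ ≤ 1 := by
  rw [XX_apply]
  split_ifs
  · exact hh i n
  · simp

open Classical in
lemma XX_part {c : ℕ → ℕ} {h : ℕ → ℕ → ℂ} (P : ℕ → ℕ → Prop) (i n : ℕ) :
    XX c h P i (part c i n) = if P i (part c i n) then h i (part c i n) else 0 := by
  rw [XX_apply]
  by_cases h1 : P i (part c i n)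
  · rw [if_pos h1, if_pos ⟨part_ne_zero c i n, fun p hp h => class_of_dvd_part hp h, h1⟩]
  · rw [if_neg h1, if_neg]
    rintro ⟨-, -, h2⟩
    exact h1 h2

lemma XX_abs {c : ℕ → ℕ} {h : ℕ → ℕ → ℂ} (hh : ∀ i n, ‖h i n‖ ≤ 1) (P : ℕ → ℕ → Prop)
    (z w n : ℕ) : (∏ i ∈ Ico z w, ab (XX c h P (i + 1))) n ≤ 1 := by
  rcases Nat.eq_zero_or_pos n with h0 | h0
  · subst h0; simp
  have e := Finset.prod_Ico_add' (fun i => ab (XX c h P i)) z w 1
  rw [e, prod_classes c (fun i => ab (XX c h P i)) _ (fun i _ n hn => by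
    have h1 : XX c h P i n ≠ 0 := by
      intro h2
      rw [ab_apply, h2, norm_zero] at hn
      exact hn rfl
    exact (XX_ne h1).1) n h0.ne']
  split_ifs
  · apply prod_le_one
    · intro i _
      exact ab_nn _ _
    · intro i _
      rw [ab_apply]
      exact XX_norm hh P _ _
  · exact zero_le_one

open Classical in
lemma XX_prod {c : ℕ → ℕ} {m : ℕ} (hc : ∀ p, c p ≤ m) (h : ℕ → ℕ → ℂ) (P : ℕ → ℕ → Prop) {n : ℕ}
    (hn : n ≠ 0) : (XX c h P 0 * ∏ i ∈ range m, XX c h P (i + 1)) n =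
      if ∀ i ≤ m, P i (part c i n) then ∏ i ∈ range (m + 1), h i (part c i n) else 0 := by
  rw [mul_comm, ← Finset.prod_range_succ' (fun i => XX c h P i) m,
    prod_classes c (fun i => XX c h P i) _ (fun i _ n hn => (XX_ne hn).1) n hn, if_pos]
  · simp only [XX_part]
    rw [Finset.prod_ite_zero]
    by_cases h1 : ∀ i ≤ m, P i (part c i n)
    · rw [if_pos h1, if_pos]
      intro i hi
      exact h1 i (by have := mem_range.1 hi; omega)
    · rw [if_neg h1, if_neg]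
      intro h2
      apply h1
      intro i hi
      exact h2 i (mem_range.2 (by omega))
  · intro p _ _
    exact mem_range.2 (by have := hc p; omega)

open Classical in
/-- **multiplicative across classes** -/
theorem classes (q A ε : ℝ) (hq : 1 ≤ q) (hA : 1 ≤ A) (hε : 0 < ε) (hε1 : ε ≤ 1) :
    ∃ K : ℝ, ∀ N T m : ℕ, 1 ≤ N → N ≤ T → (T : ℝ) ≤ (N : ℝ) ^ A →
      (m : ℝ) ≤ (N : ℝ) ^ (ε ^ 2 / (512 * q ^ 2)) →
      ∀ (c : ℕ → ℕ) (h : ℕ → ℕ → ℂ) (b : ℕ → ℂ), (∀ p, c p ≤ m) → (∀ i n, ‖h i n‖ ≤ 1) →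
        (∀ n, n ≠ 0 → b n = if part c 0 n ^ (Nat.log N T + 1) ≤ T ∧
          (∀ i, 1 ≤ i → i ≤ m → (part c i n : ℝ) ≤ (N : ℝ) ^ (ε ^ 2 / (512 * q ^ 2)))
          then ∏ i ∈ range (m + 1), h i (part c i n) else 0) →
        SD q N T b ≤ K * (N : ℝ) ^ ε * ((N : ℝ) ^ q + (N : ℝ) ^ (q / 2) * (T : ℝ)) := by
  obtain ⟨K, hK⟩ := many q A ε hq hA hε hε1
  refine ⟨K, ?_⟩
  intro N T m hN hNT hTA hm c h b hc hh hb
  set δ := ε ^ 2 / (512 * q ^ 2) with hδ
  have hδ0 : 0 < δ := by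
    have : 0 < q := by linarith
    positivity
  have hN1 : (1 : ℝ) ≤ N := by exact_mod_cast hN
  have hX1 : 1 ≤ (N : ℝ) ^ δ := Real.one_le_rpow hN1 hδ0.le
  set P : ℕ → ℕ → Prop := fun i n =>
    if i = 0 then n ^ (Nat.log N T + 1) ≤ T else (n : ℝ) ≤ (N : ℝ) ^ δ with hP
  have h1 := hK N T m hN hNT hTA hm (XX c h P 0) (fun i => XX c h P (i + 1)) (XX_norm hh P 0)
    (fun n hn => by
      have := (XX_ne hn).2
      rw [hP] at this
      simpa using this)
    (fun i _ n hn => by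
      have := (XX_ne hn).2
      rw [hP] at this
      simpa using this)
    (fun z w n _ _ => (XX_abs hh P z w n).trans hX1)
  rw [SD_congr hN (b' := fun n => (XX c h P 0 * ∏ i ∈ range m, XX c h P (i + 1)) n)]
  · exact h1
  · intro n hn
    rw [hb n hn]
    show _ = (XX c h P 0 * ∏ i ∈ range m, XX c h P (i + 1)) n
    rw [XX_prod hc h P hn]
    have hiff : (part c 0 n ^ (Nat.log N T + 1) ≤ T ∧
        (∀ i, 1 ≤ i → i ≤ m → (part c i n : ℝ) ≤ (N : ℝ) ^ δ)) ↔ ∀ i ≤ m, P i (part c i n) := by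
      constructor
      · rintro ⟨h2, h3⟩ i hi
        rw [hP]
        rcases Nat.eq_zero_or_pos i with h4 | h4
        · subst h4; simpa using h2
        · simp only [h4.ne', if_false]
          exact h3 i h4 hi
      · intro h2
        refine ⟨?_, ?_⟩
        · have := h2 0 (Nat.zero_le _)
          rw [hP] at this
          simpa using this
        · intro i h3 h4
          have h5 := h2 i h4
          have hi0 : i ≠ 0 := by omega
          simp only [hP, hi0, if_false] at h5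
          exact h5
    by_cases hh2 : ∀ i ≤ m, P i (part c i n)
    · rw [if_pos hh2, if_pos (hiff.2 hh2)]
    · rw [if_neg hh2, if_neg (fun h3 => hh2 (hiff.1 h3))]

end Pool.Agent.K6.H58.SC
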