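import Pool.Agent.TH445.MQ.Rec

set_option autoImplicit false

/-!
# Convolutions of many short sequences: decomposition and recursion
-/

open Finset

namespace Pool.Agent.K6.H58.SC

open Pool.Agent.TH445.MQ
open Pool.Agent.W200.MR (pw)

/-- the absolute value of an arithmetic function -/
noncomputable def ab (X : ArithmeticFunction ℂ) : ArithmeticFunction ℝ := ⟨fun n => ‖X n‖, by simp⟩

lemma ab_apply (X : AF) (n : ℕ) : ab X n = ‖X n‖ := rfl

lemma norm_mul_le_ab (X Y : AF) (n : ℕ) : ‖(X * Y) n‖ ≤ (ab X * ab Y) n := by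
  rw [ArithmeticFunction.mul_apply, ArithmeticFunction.mul_apply]
  refine (norm_sum_le _ _).trans (le_of_eq ?_)
  apply sum_congr rfl
  intro p _
  rw [norm_mul]
  rfl

lemma mul_mono {X X' Y Y' : ArithmeticFunction ℝ} (hX : ∀ n, X n ≤ X' n) (hY : ∀ n, Y n ≤ Y' n)
    (hY0 : ∀ n, 0 ≤ Y n) (hX' : ∀ n, 0 ≤ X' n) (n : ℕ) : (X * Y) n ≤ (X' * Y') n := by
  rw [ArithmeticFunction.mul_apply, ArithmeticFunction.mul_apply]
  apply sum_le_sum
  intro p _
  exact mul_le_mul (hX _) (hY _) (hY0 _) (hX' _)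

lemma mul_nn {X Y : ArithmeticFunction ℝ} (hX : ∀ n, 0 ≤ X n) (hY : ∀ n, 0 ≤ Y n) (n : ℕ) :
    0 ≤ (X * Y) n := by
  rw [ArithmeticFunction.mul_apply]
  exact sum_nonneg fun p _ => mul_nonneg (hX _) (hY _)

lemma one_nn (n : ℕ) : 0 ≤ (1 : ArithmeticFunction ℝ) n := by
  rw [ArithmeticFunction.one_apply]
  split_ifs <;> norm_num

lemma prod_nn {ι : Type*} (s : Finset ι) (X : ι → ArithmeticFunction ℝ) (h : ∀ i n, 0 ≤ X i n) :
    ∀ n, 0 ≤ (∏ i ∈ s, X i) n := by
  classical
  induction s using Finset.induction_on with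
  | empty => simpa using one_nn
  | insert a s ha ih =>
    rw [prod_insert ha]
    exact mul_nn (h a) ih

lemma norm_prod_le_ab {ι : Type*} (s : Finset ι) (X : ι → AF) :
    ∀ n, ‖(∏ i ∈ s, X i) n‖ ≤ (∏ i ∈ s, ab (X i)) n := by
  classical
  induction s using Finset.induction_on with
  | empty =>
    intro n
    rw [prod_empty, prod_empty, ArithmeticFunction.one_apply, ArithmeticFunction.one_apply]
    split_ifs <;> simp
  | insert a s ha ih =>
    intro n
    rw [prod_insert ha, prod_insert ha]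
    refine (norm_mul_le_ab _ _ n).trans ?_
    exact mul_mono (fun _ => le_rfl) ih (fun n => by rw [ab_apply]; exact norm_nonneg _)
      (fun n => by rw [ab_apply]; exact norm_nonneg _) n

/-- the product of `F z, …, F (w - 1)` -/
noncomputable def PP (F : ℕ → AF) (z w : ℕ) : AF := ∏ i ∈ Ico z w, F i

/-- the absolute product -/
noncomputable def PA (F : ℕ → AF) (z w : ℕ) : ArithmeticFunction ℝ := ∏ i ∈ Ico z w, ab (F i)

/-- the block -/
noncomputable def BB (F : ℕ → AF) (M : ℝ) (z w : ℕ) : AF := high M (low M (PP F z w) * F w)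

lemma low_low_mul (M : ℝ) (X Y : AF) : low M (low M X * Y) = low M (X * Y) := by
  ext n
  rw [low_apply, low_apply]
  split_ifs with h
  · rw [ArithmeticFunction.mul_apply, ArithmeticFunction.mul_apply]
    apply sum_congr rfl
    rintro ⟨a, b⟩ hab
    rw [Nat.mem_divisorsAntidiagonal] at hab
    simp only at hab ⊢
    rw [low_apply, if_pos]
    have hb : 1 ≤ b := by
      rcases Nat.eq_zero_or_pos b with h0 | h0
      · subst h0; simp at hab; exact absurd hab.1.symm hab.2
      · exact h0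
    have h1 : a ≤ n := by rw [← hab.1]; exact Nat.le_mul_of_pos_right a hb
    have h2 : (a : ℝ) ≤ n := by exact_mod_cast h1
    linarith
  · rfl

lemma PP_self (F : ℕ → AF) (z : ℕ) : PP F z z = 1 := by simp [PP]

lemma PP_succ (F : ℕ → AF) {z w : ℕ} (h : z ≤ w) : PP F z (w + 1) = PP F z w * F w := by
  unfold PP
  rw [Finset.prod_Ico_succ_top h]

lemma PP_head (F : ℕ → AF) {z w : ℕ} (h : z < w) : PP F z w = F z * PP F (z + 1) w := by
  unfold PP
  rw [Finset.prod_eq_prod_Ico_succ_bot h]

lemma low_one {M : ℝ} (hM : 1 < M) : low M (1 : AF) = 1 := by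
  ext n
  rw [low_apply]
  by_cases hn : n = 1
  · subst hn
    rw [if_pos (by simpa using hM)]
  · rw [ArithmeticFunction.one_apply_ne hn]
    simp

/-- **telescoping** -/
lemma tele (F : ℕ → AF) {M : ℝ} (hM : 1 < M) (z d : ℕ) :
    PP F z (z + d) = low M (PP F z (z + d)) +
      ∑ w ∈ Ico z (z + d), BB F M z w * PP F (w + 1) (z + d) := by
  -- general: for every `w ≤ z + d`
  have key : ∀ e ≤ d, PP F z (z + d) = low M (PP F z (z + e)) * PP F (z + e) (z + d) +
      ∑ w ∈ Ico z (z + e), BB F M z w * PP F (w + 1) (z + d) := by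
    intro e he
    induction e with
    | zero => simp [PP_self, low_one hM]
    | succ e ih =>
      rw [ih (by omega)]
      have h1 : z + (e + 1) = (z + e) + 1 := by ring
      rw [h1, Finset.sum_Ico_succ_top (by omega), PP_succ F (by omega : z ≤ z + e),
        PP_head F (by omega : z + e < z + d)]
      have h2 : low M (PP F z (z + e)) * F (z + e) = low M (PP F z (z + e) * F (z + e)) +
          BB F M z (z + e) := by
        rw [← low_low_mul]
        unfold BB
        rw [low_add_high]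
      rw [← mul_assoc, h2]
      ring
  have := key d le_rfl
  rwa [PP_self, mul_one] at this

lemma low_norm_le (M : ℝ) (X : AF) (n : ℕ) : ‖low M X n‖ ≤ ‖X n‖ := by
  rw [low_apply]
  split_ifs
  · exact le_rfl
  · simp

lemma high_norm_le (M : ℝ) (X : AF) (n : ℕ) : ‖high M X n‖ ≤ ‖X n‖ := by
  rw [high_apply]
  split_ifs
  · simp
  · exact le_rfl

lemma ab_nn (X : AF) (n : ℕ) : 0 ≤ ab X n := by rw [ab_apply]; exact norm_nonneg _

lemma BB_norm (F : ℕ → AF) (M : ℝ) {z w : ℕ} (hzw : z ≤ w) (n : ℕ) :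
    ‖BB F M z w n‖ ≤ PA F z (w + 1) n := by
  unfold BB
  refine (high_norm_le _ _ _).trans ((norm_mul_le_ab _ _ n).trans ?_)
  unfold PA
  rw [Finset.prod_Ico_succ_top hzw]
  exact mul_mono (fun n => (low_norm_le _ _ _).trans (norm_prod_le_ab _ _ n)) (fun _ => le_rfl)
    (fun n => ab_nn _ _) (prod_nn _ _ fun i n => ab_nn _ _) n

/-- scalar multiple -/
lemma cut_smul (N : ℕ) (c : ℂ) (X : AF) (τ : ℝ) : cut N (c • X) τ = c * cut N X τ := by
  unfold cut
  rw [mul_sum]
  apply sum_congr rfl
  intro n _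
  have : (c • X) n = c * X n := rfl
  rw [this]
  ring

lemma smul_mul' (c : ℂ) (X Y : AF) : c • X * Y = c • (X * Y) := by
  ext n
  have h1 : (c • (X * Y)) n = c * (X * Y) n := rfl
  rw [h1, ArithmeticFunction.mul_apply, ArithmeticFunction.mul_apply, mul_sum]
  apply sum_congr rfl
  intro p _
  have h2 : (c • X) p.1 = c * X p.1 := rfl
  rw [h2]
  ring

lemma SS_smul (N T : ℕ) (q : ℝ) {c : ℝ} (hc : 0 ≤ c) (X : AF) :
    SS N T q ((c : ℂ) • X) = c ^ q * SS N T q X := by
  unfold SS
  rw [mul_sum]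
  apply sum_congr rfl
  intro t _
  rw [cut_smul, norm_mul, Complex.norm_real, Real.norm_of_nonneg hc,
    Real.mul_rpow hc (norm_nonneg _)]

/-- normalised -/
noncomputable def nrm (V : ℝ) (X : AF) : AF := ((V⁻¹ : ℝ) : ℂ) • X

lemma nrm_apply (V : ℝ) (X : AF) (n : ℕ) : nrm V X n = ((V⁻¹ : ℝ) : ℂ) * X n := rfl

lemma smul_nrm {V : ℝ} (hV : 0 < V) (X : AF) : ((V : ℝ) : ℂ) • nrm V X = X := by
  unfold nrm
  rw [smul_smul, ← Complex.ofReal_mul, mul_inv_cancel₀ hV.ne', Complex.ofReal_one, one_smul]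

lemma nrm_Bd {V : ℝ} (hV : 0 < V) {X : AF} (hX : ∀ n, ‖X n‖ ≤ V) {x : ℝ}
    (hx : ∀ n, X n ≠ 0 → (n : ℝ) ≤ x) : Bd (nrm V X) 1 x := by
  refine ⟨fun n => ?_, fun n hn => hx n ?_⟩
  · rw [nrm_apply, norm_mul, Complex.norm_real, Real.norm_of_nonneg (by positivity),
      inv_mul_le_iff₀ hV, mul_one]
    exact hX n
  · intro h
    rw [nrm_apply, h, mul_zero] at hn
    exact hn rfl

lemma nrm_Ge {V : ℝ} {X : AF} {x : ℝ} (hX : Ge X x) : Ge (nrm V X) x := by
  intro n hn
  apply hX n
  intro h
  rw [nrm_apply, h, mul_zero] at hn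
  exact hn rfl

lemma high_Ge (M : ℝ) (X : AF) : Ge (high M X) M := by
  intro n hn
  rw [high_apply] at hn
  split_ifs at hn with h
  · exact absurd rfl hn
  · exact not_lt.1 h

/-- **the recursion** -/
theorem recursion' {N T k y J K m : ℕ} (hN : 2 ≤ N) (hNT : N ≤ T) (hk : T < N ^ (k + 1))
    (hy : 1 ≤ y)
    {M Δ η C q V : ℝ} (hM : 1 < M) (hΔ1 : 1 ≤ Δ) (hC : 1 ≤ C) (hq : 1 ≤ q) (hV : 1 ≤ V)
    (hΔ : ∀ n : ℕ, 1 ≤ n → (n : ℝ) ≤ T → (n.divisors.card : ℝ) ≤ Δ)
    (hK : Real.log T / Real.log M + k + 1 ≤ K)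
    (hcut : ∀ X : AF, FS X → ∀ (T : ℕ) (q W : ℝ), 1 ≤ q →
      (∀ ξ : ℝ, ∑ t ∈ Icc 1 T, ‖ev X ((t : ℝ) + ξ)‖ ^ q ≤ W) →
      ∑ t ∈ Icc 1 T, ‖cut N X (t : ℝ)‖ ^ q ≤ (C * (N : ℝ) ^ η) ^ q * W)
    (hMJ : 2 * (N : ℝ) < M ^ (J + 1))
    (G : AF) (hG : ∀ n, ‖G n‖ ≤ 1) (hGs : ∀ n, G n ≠ 0 → n ^ (k + 1) ≤ T)
    (F : ℕ → AF) (hF : ∀ i < m, ∀ n, F i n ≠ 0 → (n : ℝ) ≤ y)
    (hFV : ∀ z w n, z ≤ w → w ≤ m → PA F z w n ≤ V) (i : ℕ) :
    ∀ l : List AF, (∀ B ∈ l, Bd B 1 (M * y) ∧ Ge B M) → l.length + i = J + 1 → ∀ z ≤ m,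
      SS N T q (G * l.prod * PP F z m) ≤
        ((m : ℝ) + 1) ^ (q * i) * V ^ (q * ((i : ℝ) + 1)) * WW C η Δ M N T y J K q := by
  have hM0 : 0 < M := by linarith
  have hV0 : 0 < V := by linarith
  have hy0 : (0 : ℝ) ≤ y := Nat.cast_nonneg _
  have hy1 : (1 : ℝ) ≤ y := by exact_mod_cast hy
  have hW0 : 0 ≤ WW C η Δ M N T y J K q := WW_nonneg (by linarith) (by linarith) hM0.le (by omega)
  induction i with
  | zero =>
    intro l hl hlen z hz
    rw [SS_zero hq]
    · positivity
    · intro n hn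
      by_contra hc
      have h1 : Ge (G * l.prod * PP F z m) (1 * M ^ l.length * 1) :=
        ((Ge.base G).mul (Ge.list hM0.le fun B hB => (hl B hB).2) (by positivity)).mul
          (Ge.base _) (by norm_num)
      have h2 := h1 n hc
      have h3 : (n : ℝ) ≤ 2 * N := by exact_mod_cast (mem_Icc.1 hn).2
      rw [show l.length = J + 1 by omega, one_mul, mul_one] at h2
      linarith
  | succ i ih =>
    intro l hl hlen z hz
    obtain ⟨d, rfl⟩ : ∃ d, m = z + d := ⟨m - z, by omega⟩
    set m := z + d with hm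
    set h : ℕ → AF := fun a => match a with
      | 0 => G * l.prod * nrm V (low M (PP F z m))
      | a + 1 => G * (nrm V (BB F M z (z + a)) :: l).prod * PP F (z + a + 1) m with hh
    have hsum : G * l.prod * PP F z m = ((V : ℝ) : ℂ) • ∑ a ∈ range (d + 1), h a := by
      have h1 := tele F hM z d
      rw [Finset.sum_Ico_eq_sum_range, Nat.add_sub_cancel_left] at h1
      rw [← hm] at h1
      rw [sum_range_succ', h1, mul_add, mul_sum, add_comm, smul_add, Finset.smul_sum]
      congr 1
      · apply sum_congr rfl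
        intro a _
        simp only [hh, List.prod_cons]
        have h2 : G * (nrm V (BB F M z (z + a)) * l.prod) * PP F (z + a + 1) m =
            nrm V (BB F M z (z + a)) * (G * l.prod * PP F (z + a + 1) m) := by ring
        rw [h2, ← smul_mul', smul_nrm hV0]
        ring
      · simp only [hh]
        have h2 : G * l.prod * nrm V (low M (PP F z m)) =
            nrm V (low M (PP F z m)) * (G * l.prod) := by ring
        rw [h2, ← smul_mul', smul_nrm hV0]
        ring
    rw [hsum, SS_smul N T q hV0.le]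
    have hY1 : (1 : ℝ) ≤ (m : ℝ) + 1 := by
      have : (0 : ℝ) ≤ m := Nat.cast_nonneg _
      linarith
    set WB := ((m : ℝ) + 1) ^ (q * i) * V ^ (q * ((i : ℝ) + 1)) * WW C η Δ M N T y J K q with hWB
    have hWB0 : 0 ≤ WB := by positivity
    have hterm : ∀ a ∈ range (d + 1), SS N T q (h a) ≤ WB := by
      intro a ha
      rw [mem_range] at ha
      rcases a with _ | a
      · have hb : Bd (nrm V (low M (PP F z m))) 1 (M * y) := by
          apply nrm_Bd hV0
          · intro n
            refine (low_norm_le _ _ _).trans ((norm_prod_le_ab _ _ n).trans ?_)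
            exact hFV z m n hz le_rfl
          · intro n hn
            rw [low_apply] at hn
            split_ifs at hn with h0
            · nlinarith
            · exact absurd rfl hn
        have h1 := leaf hN hNT hk hy hM hΔ1 hC hq hΔ hK hcut G hG hGs l hl
          (by omega : l.length ≤ J) _ hb
        refine h1.trans ?_
        have h2 : 1 ≤ ((m : ℝ) + 1) ^ (q * i) := Real.one_le_rpow hY1 (by positivity)
        have h3 : 1 ≤ V ^ (q * ((i : ℝ) + 1)) := Real.one_le_rpow hV (by positivity)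
        have h4 : 1 ≤ ((m : ℝ) + 1) ^ (q * i) * V ^ (q * ((i : ℝ) + 1)) := by nlinarith
        calc WW C η Δ M N T y J K q = 1 * WW C η Δ M N T y J K q := (one_mul _).symm
          _ ≤ _ := mul_le_mul_of_nonneg_right h4 hW0
      · apply ih _ _ _ (z + a + 1) (by omega)
        · intro b hb
          rcases List.mem_cons.1 hb with h1 | h1
          · rw [h1]
            refine ⟨nrm_Bd hV0 ?_ ?_, nrm_Ge (high_Ge _ _)⟩
            · intro n
              exact (BB_norm F M (by omega : z ≤ z + a) n).trans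
                (hFV z (z + a + 1) n (by omega) (by omega))
            · intro n hn
              have h2 : (low M (PP F z (z + a)) * F (z + a)) n ≠ 0 := by
                intro h0
                unfold BB at hn
                rw [high_apply, h0] at hn
                simp at hn
              obtain ⟨a', b', hab, ha', hb'⟩ := mul_ne h2
              rw [low_apply] at ha'
              split_ifs at ha' with h3
              · have h4 := hF _ (by omega : z + a < m) b' hb'
                rw [← hab]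
                push_cast
                exact mul_le_mul h3.le h4 (Nat.cast_nonneg _) hM0.le
              · exact absurd rfl ha'
          · exact hl b h1
        · rw [List.length_cons]; omega
    have hS := SS_sum N T q hq (range (d + 1)) h
    rw [card_range] at hS
    have hcard : ((d + 1 : ℕ) : ℝ) ≤ (m : ℝ) + 1 := by
      have : d ≤ m := by omega
      have : (d : ℝ) ≤ m := by exact_mod_cast this
      push_cast
      linarith
    calc V ^ q * SS N T q (∑ a ∈ range (d + 1), h a)
        ≤ V ^ q * (((d + 1 : ℕ) : ℝ) ^ (q - 1) * ∑ a ∈ range (d + 1), SS N T q (h a)) :=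
          mul_le_mul_of_nonneg_left hS (by positivity)
      _ ≤ V ^ q * (((d + 1 : ℕ) : ℝ) ^ (q - 1) * ∑ _a ∈ range (d + 1), WB) := by
          apply mul_le_mul_of_nonneg_left _ (by positivity)
          exact mul_le_mul_of_nonneg_left (sum_le_sum hterm) (by positivity)
      _ = V ^ q * (((d + 1 : ℕ) : ℝ) ^ q * WB) := by
          rw [sum_const, card_range, nsmul_eq_mul, ← mul_assoc (((d + 1 : ℕ) : ℝ) ^ (q - 1))]
          congr 2
          have h0 : (0 : ℝ) < ((d + 1 : ℕ) : ℝ) := by positivity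
          nth_rewrite 2 [← Real.rpow_one ((d + 1 : ℕ) : ℝ)]
          rw [← Real.rpow_add h0]
          congr 1
          ring
      _ ≤ V ^ q * (((m : ℝ) + 1) ^ q * WB) := by
          apply mul_le_mul_of_nonneg_left _ (by positivity)
          apply mul_le_mul_of_nonneg_right _ hWB0
          exact Real.rpow_le_rpow (by positivity) hcard (by linarith)
      _ = ((m : ℝ) + 1) ^ (q * ((i + 1 : ℕ) : ℝ)) * V ^ (q * (((i + 1 : ℕ) : ℝ) + 1)) *
          WW C η Δ M N T y J K q := by
          have e1 : ((m : ℝ) + 1) ^ (q * ((i + 1 : ℕ) : ℝ)) =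
              ((m : ℝ) + 1) ^ q * ((m : ℝ) + 1) ^ (q * i) := by
            rw [← Real.rpow_add (by linarith)]
            congr 1
            push_cast
            ring
          have e2 : V ^ (q * (((i + 1 : ℕ) : ℝ) + 1)) = V ^ q * V ^ (q * ((i : ℝ) + 1)) := by
            rw [← Real.rpow_add hV0]
            congr 1
            push_cast
            ring
          rw [e1, e2, hWB]
          ring

end Pool.Agent.K6.H58.SC
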