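import Pool.Agent.K6.H58.SC.Core
import Pool.Agent.TH445.MQ.Fin

set_option autoImplicit false

/-!
# Montgomery's inequality for convolutions of many short sequences
-/

open Finset

namespace Pool.Agent.K6.H58.SC

open Pool.Agent.TH445.MQ
open Pool.Agent.W200.MR (pw)

/-- general form -/
theorem general (q A ε : ℝ) (hq : 1 ≤ q) (hA : 1 ≤ A) (hε : 0 < ε) (hε1 : ε ≤ 1) :
    ∃ K : ℝ, 0 ≤ K ∧ ∀ N T m : ℕ, 1 ≤ N → N ≤ T → (T : ℝ) ≤ (N : ℝ) ^ A →
      ∀ (G : AF) (F : ℕ → AF) (V : ℝ), 1 ≤ V → (∀ n, ‖G n‖ ≤ 1) →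
        (∀ n, G n ≠ 0 → n ^ (Nat.log N T + 1) ≤ T) →
        (∀ i < m, ∀ n, F i n ≠ 0 → (n : ℝ) ≤ (N : ℝ) ^ (ε ^ 2 / (128 * q ^ 2))) →
        (∀ z w n, z ≤ w → w ≤ m → (∏ i ∈ Ico z w, ab (F i)) n ≤ V) →
        ∑ t ∈ Finset.Icc 1 T,
            ‖∑ n ∈ Finset.Icc N (2 * N), (G * ∏ i ∈ range m, F i) n *
              Complex.exp (Complex.I * (t : ℂ) * ((Real.log (n : ℝ) : ℝ) : ℂ))‖ ^ q
          ≤ K * (((m : ℝ) + 1) * V) ^ (30 * q ^ 2 / ε) * (N : ℝ) ^ ε *
            ((N : ℝ) ^ q + (N : ℝ) ^ (q / 2) * (T : ℝ)) := by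
  have hq0 : 0 < q := by linarith
  obtain ⟨s, hs1, hs2, hs4⟩ : ∃ s : ℕ, 1 ≤ s ∧ 4 * (2 + q) / ε ≤ s ∧
      (s : ℝ) ≤ 4 * (2 + q) / ε + 2 := by
    refine ⟨⌈4 * (2 + q) / ε⌉₊ + 1, by omega, ?_, ?_⟩
    · push_cast
      linarith [Nat.le_ceil (4 * (2 + q) / ε)]
    · push_cast
      have := Nat.ceil_lt_add_one (a := 4 * (2 + q) / ε) (by positivity)
      linarith
  have hs0 : (0 : ℝ) < s := by exact_mod_cast hs1
  have hs3 : (2 + q) / s ≤ ε / 4 := by
    rw [div_le_iff₀ hε] at hs2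
    rw [div_le_div_iff₀ hs0 (by norm_num)]
    linarith
  obtain ⟨J, hJ⟩ : ∃ J : ℕ, J = 2 * s := ⟨_, rfl⟩
  have hJr : (J : ℝ) = 2 * s := by rw [hJ]; push_cast; ring
  have hsε : (s : ℝ) * ε ≤ 4 * (2 + q) + 2 * ε := by
    have h2 : (s : ℝ) * ε ≤ (4 * (2 + q) / ε + 2) * ε := mul_le_mul_of_nonneg_right hs4 hε.le
    have h3 : (4 * (2 + q) / ε + 2) * ε = 4 * (2 + q) + 2 * ε := by field_simp
    rwa [h3] at h2
  have hκ : q * (((J + 1 : ℕ) : ℝ) + 1) ≤ 30 * q ^ 2 / ε := by
    rw [le_div_iff₀ hε]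
    push_cast
    rw [hJr]
    nlinarith [mul_le_mul_of_nonneg_left hsε hq0.le]
  set E0 : ℝ := q * (2 * s + 1) + 2 with hE0
  have hE0p : 0 < E0 := by positivity
  have hE1 : E0 * ε ≤ 32 * q ^ 2 := by
    rw [hE0]
    nlinarith [mul_le_mul_of_nonneg_left hsε hq0.le]
  set δ : ℝ := ε ^ 2 / (128 * q ^ 2) with hδ
  have hδ0 : 0 < δ := by positivity
  have hδE : δ * E0 ≤ ε / 4 := by
    rw [hδ, div_mul_eq_mul_div, div_le_div_iff₀ (by positivity) (by norm_num)]
    nlinarith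
  set η : ℝ := min 1 (ε / (4 * (q + 3))) with hη
  have hη0 : 0 < η := lt_min one_pos (by positivity)
  have hη1 : η ≤ 1 := min_le_left _ _
  have hηq : η * (q + 3) ≤ ε / 4 := by
    calc η * (q + 3) ≤ ε / (4 * (q + 3)) * (q + 3) :=
          mul_le_mul_of_nonneg_right (min_le_right _ _) (by positivity)
      _ = ε / 4 := by field_simp
  obtain ⟨K, hK1, hK2⟩ : ∃ K : ℕ, 1 ≤ K ∧ A * s + A + 1 ≤ K :=
    ⟨⌈A * s + A + 1⌉₊ + 1, by omega, by push_cast; linarith [Nat.le_ceil (A * s + A + 1)]⟩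
  have hK0 : (0 : ℝ) < K := by exact_mod_cast hK1
  set η' : ℝ := ε / (8 * A * K) with hη'
  have hη'0 : 0 < η' := by positivity
  have hη'K : A * η' * (2 * K) = ε / 4 := by rw [hη']; field_simp; norm_num
  obtain ⟨C, hC1, hC⟩ := cut_moment η hη0 hη1
  obtain ⟨Cd, hCd0, hCd⟩ := Pool.Agent.H510R2.divisor_bound η' hη'0
  set Cd' : ℝ := max Cd 1 with hCd'
  have hCd'1 : 1 ≤ Cd' := le_max_right _ _
  set c0 : ℝ := C ^ q * (30 * (1 + A / η) ^ 3 * Cd' ^ (2 * K) * 2 ^ q) with hc0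
  have hc00 : 0 ≤ c0 := by positivity
  refine ⟨c0 + 4 ^ q, by positivity, ?_⟩
  intro N T m hN hNT hTA G F V hV hG hGs hF hFV
  have hm1 : (1 : ℝ) ≤ (m : ℝ) + 1 := by
    have : (0 : ℝ) ≤ m := Nat.cast_nonneg _
    linarith
  have hmV : V ≤ ((m : ℝ) + 1) * V := by nlinarith
  have hmV1 : 1 ≤ ((m : ℝ) + 1) * V := by linarith
  rcases Nat.lt_or_ge N 2 with hN2 | hN2
  · -- `N = 1`
    have hN1 : N = 1 := by omega
    subst hN1
    have hT1 : T = 1 := by
      rw [Nat.cast_one, Real.one_rpow] at hTA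
      have : T ≤ 1 := by exact_mod_cast hTA
      omega
    subst hT1
    rw [Icc_self, sum_singleton]
    simp only [Nat.cast_one, Real.one_rpow, mul_one] at hF ⊢
    have hκq : q ≤ 30 * q ^ 2 / ε := by
      rw [le_div_iff₀ hε]
      nlinarith
    have hb : ∀ n, ‖(G * ∏ i ∈ range m, F i) n‖ ≤ n.divisors.card * V := by
      intro n
      refine (norm_mul_le_ab _ _ n).trans ?_
      rw [ArithmeticFunction.mul_apply, Nat.sum_divisorsAntidiagonal (f := fun a b =>
        ab G a * ab (∏ i ∈ range m, F i) b), ← nsmul_eq_mul, ← sum_const]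
      apply sum_le_sum
      intro a _
      calc ab G a * ab (∏ i ∈ range m, F i) (n / a) ≤ 1 * V := by
            apply mul_le_mul _ _ (ab_nn _ _) zero_le_one
            · rw [ab_apply]; exact hG _
            · rw [ab_apply]
              refine (norm_prod_le_ab _ _ _).trans ?_
              have := hFV 0 m (n / a) (by omega) le_rfl
              rwa [← Finset.range_eq_Ico] at this
        _ = V := one_mul _
    have h1 : ‖∑ n ∈ Icc 1 2, (G * ∏ i ∈ range m, F i) n *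
        Complex.exp (Complex.I * ((Real.log (n : ℝ) : ℝ) : ℂ))‖ ≤ 4 * V := by
      calc _ ≤ ∑ n ∈ Icc 1 2, ‖(G * ∏ i ∈ range m, F i) n *
            Complex.exp (Complex.I * ((Real.log (n : ℝ) : ℝ) : ℂ))‖ := norm_sum_le _ _
        _ ≤ ∑ n ∈ Icc 1 2, (n.divisors.card * V) := by
            apply sum_le_sum
            intro n hn
            rw [norm_mul, mul_comm Complex.I, Complex.norm_exp_ofReal_mul_I, mul_one]
            exact hb n
        _ ≤ 4 * V := by
            have e : Icc 1 2 = ({1, 2} : Finset ℕ) := by decide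
            rw [e, sum_pair (by norm_num)]
            have e1 : (Nat.divisors 1).card = 1 := by decide
            have e2 : (Nat.divisors 2).card = 2 := by decide
            rw [e1, e2]
            push_cast
            linarith
    have h2 : ‖∑ n ∈ Icc 1 2, (G * ∏ i ∈ range m, F i) n *
        Complex.exp (Complex.I * ((Real.log (n : ℝ) : ℝ) : ℂ))‖ ^ q ≤
        4 ^ q * (((m : ℝ) + 1) * V) ^ (30 * q ^ 2 / ε) := by
      calc _ ≤ (4 * V) ^ q := Real.rpow_le_rpow (norm_nonneg _) h1 hq0.le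
        _ ≤ (4 * (((m : ℝ) + 1) * V)) ^ q := by
            apply Real.rpow_le_rpow (by positivity) _ hq0.le
            linarith
        _ = 4 ^ q * (((m : ℝ) + 1) * V) ^ q := Real.mul_rpow (by norm_num) (by linarith)
        _ ≤ 4 ^ q * (((m : ℝ) + 1) * V) ^ (30 * q ^ 2 / ε) :=
            mul_le_mul_of_nonneg_left (Real.rpow_le_rpow_of_exponent_le hmV1 hκq) (by positivity)
    have h3 : (0 : ℝ) < 4 ^ q := by positivity
    have h4 : (0 : ℝ) ≤ (((m : ℝ) + 1) * V) ^ (30 * q ^ 2 / ε) := by positivity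
    have h5 : 0 ≤ c0 * (((m : ℝ) + 1) * V) ^ (30 * q ^ 2 / ε) := mul_nonneg hc00 h4
    have h6 : 0 ≤ (4 : ℝ) ^ q * (((m : ℝ) + 1) * V) ^ (30 * q ^ 2 / ε) := mul_nonneg h3.le h4
    nlinarith
  · have hN0 : (0 : ℝ) < N := by exact_mod_cast (by omega : 0 < N)
    have hNr : (2 : ℝ) ≤ N := by exact_mod_cast hN2
    have hNr1 : (1 : ℝ) ≤ N := by linarith
    have hT1 : 1 ≤ T := by omega
    have hTr : (1 : ℝ) ≤ T := by exact_mod_cast hT1
    have hlN : 0 < Real.log N := Real.log_pos (by linarith)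
    have hlT : 0 ≤ Real.log T := Real.log_nonneg hTr
    have hlTN : Real.log T ≤ A * Real.log N := by
      have := Real.log_le_log (by linarith) hTA
      rwa [Real.log_rpow hN0] at this
    set k := Nat.log N T with hk
    have hk1 : T < N ^ (k + 1) := Nat.lt_pow_succ_log_self hN2 T
    have hk2 : N ^ k ≤ T := Nat.pow_log_le_self N (by omega)
    have hkA : (k : ℝ) ≤ A := by
      have h1 : ((N : ℝ)) ^ k ≤ T := by exact_mod_cast hk2
      have h2 := Real.log_le_log (by positivity) h1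
      rw [Real.log_pow] at h2
      have h3 : (k : ℝ) * Real.log N ≤ A * Real.log N := h2.trans hlTN
      exact le_of_mul_le_mul_right h3 hlN
    set M : ℝ := (N : ℝ) ^ (1 / (s : ℝ)) with hM
    have hM1 : 1 < M := Real.one_lt_rpow (by linarith) (by positivity)
    have hlM : Real.log M = 1 / s * Real.log N := Real.log_rpow hN0 _
    have hKK : Real.log T / Real.log M + k + 1 ≤ K := by
      have : Real.log T / Real.log M ≤ A * s := by
        rw [hlM, div_le_iff₀ (by positivity)]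
        calc Real.log T ≤ A * Real.log N := hlTN
          _ = A * s * (1 / s * Real.log N) := by field_simp
      linarith
    set Δ : ℝ := Cd' * (N : ℝ) ^ (A * η') with hΔ
    have hΔ1 : 1 ≤ Δ := by
      have h1 : 1 ≤ (N : ℝ) ^ (A * η') := Real.one_le_rpow hNr1 (by positivity)
      rw [hΔ]
      nlinarith
    have hΔd : ∀ n : ℕ, 1 ≤ n → (n : ℝ) ≤ T → (n.divisors.card : ℝ) ≤ Δ := by
      intro n hn hnT
      calc (n.divisors.card : ℝ) ≤ Cd * (n : ℝ) ^ η' := hCd n hn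
        _ ≤ Cd' * ((N : ℝ) ^ A) ^ η' := by
            apply mul_le_mul (le_max_left _ _) _ (by positivity) (by positivity)
            exact Real.rpow_le_rpow (Nat.cast_nonneg _) (hnT.trans hTA) hη'0.le
        _ = Δ := by rw [hΔ, ← Real.rpow_mul hN0.le]
    have hMJ : 2 * (N : ℝ) < M ^ (J + 1) := by
      rw [hM, ← Real.rpow_natCast, ← Real.rpow_mul hN0.le]
      have h1 : 1 / (s : ℝ) * ((J + 1 : ℕ) : ℝ) = 2 + 1 / s := by
        push_cast
        rw [hJr]
        field_simp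
      rw [h1]
      calc 2 * (N : ℝ) ≤ (N : ℝ) ^ (2 : ℝ) := by
            rw [show (2 : ℝ) = ((2 : ℕ) : ℝ) by norm_num, Real.rpow_natCast]
            push_cast
            nlinarith
        _ < (N : ℝ) ^ (2 + 1 / (s : ℝ)) := by
            apply Real.rpow_lt_rpow_of_exponent_lt (by linarith)
            have : 0 < 1 / (s : ℝ) := by positivity
            linarith
    set X : ℝ := (N : ℝ) with hX
    have hXδ : 1 ≤ X ^ δ := Real.one_le_rpow hNr1 hδ0.le
    -- the integer `y`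
    obtain ⟨y, hyd⟩ : ∃ y : ℕ, y = ⌊X ^ δ⌋₊ := ⟨_, rfl⟩
    have hyδ : (y : ℝ) ≤ X ^ δ := by rw [hyd]; exact Nat.floor_le (by positivity)
    have hy : 1 ≤ y := by
      rw [hyd]
      exact Nat.le_floor (by simpa using hXδ)
    have hy1 : (1 : ℝ) ≤ y := by exact_mod_cast hy
    have hFy : ∀ i < m, ∀ n, F i n ≠ 0 → (n : ℝ) ≤ y := by
      intro i hi n hn
      have h1 := hF i hi n hn
      have h2 : n ≤ y := by rw [hyd]; exact Nat.le_floor h1
      exact_mod_cast h2
    have hrec := recursion' hN2 hNT hk1 hy hM1 hΔ1 hC1 hq hV hΔd hKK (hC N hN) hMJ G hG hGs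
      F hFy (fun z w n hz hw => hFV z w n hz hw) (J + 1) [] (by simp) (by simp) 0 (by omega)
    rw [List.prod_nil, mul_one] at hrec
    have hLHS : ∑ t ∈ Finset.Icc 1 T, ‖∑ n ∈ Finset.Icc N (2 * N),
        (G * ∏ i ∈ range m, F i) n *
          Complex.exp (Complex.I * (t : ℂ) * ((Real.log (n : ℝ) : ℝ) : ℂ))‖ ^ q =
        SS N T q (G * PP F 0 m) := by
      unfold SS cut PP
      rw [← Finset.range_eq_Ico]
      apply sum_congr rfl
      intro t _
      congr 2
      apply sum_congr rfl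
      intro n hn
      rw [pw_exp]
    rw [hLHS]
    refine hrec.trans ?_
    -- the numerical estimate
    have b0 : V ^ (q * (((J + 1 : ℕ) : ℝ) + 1)) ≤ V ^ (30 * q ^ 2 / ε) :=
      Real.rpow_le_rpow_of_exponent_le hV hκ
    have b1 : ((m : ℝ) + 1) ^ (q * ((J + 1 : ℕ) : ℝ)) ≤ ((m : ℝ) + 1) ^ (30 * q ^ 2 / ε) := by
      apply Real.rpow_le_rpow_of_exponent_le hm1
      refine le_trans ?_ hκ
      apply mul_le_mul_of_nonneg_left _ hq0.le
      linarith
    have b2 : (C * X ^ η) ^ q = C ^ q * X ^ (η * q) := by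
      rw [Real.mul_rpow (by linarith) (by positivity), ← Real.rpow_mul hN0.le]
    have hMy : M * y ≤ X ^ (1 / (s : ℝ) + δ) := by
      rw [Real.rpow_add hN0]
      exact mul_le_mul_of_nonneg_left hyδ (by positivity)
    have hMy0 : 0 ≤ M * y := by positivity
    have b3 : (M * y) ^ 2 ≤ X ^ (2 * (1 / (s : ℝ) + δ)) := by
      calc (M * y) ^ 2 ≤ (X ^ (1 / (s : ℝ) + δ)) ^ 2 := pow_le_pow_left₀ hMy0 hMy 2
        _ = X ^ (2 * (1 / (s : ℝ) + δ)) := by
            rw [← Real.rpow_natCast, ← Real.rpow_mul hN0.le]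
            congr 1
            push_cast
            ring
    have b4 : (1 + Real.log T) ^ 3 ≤ (1 + A / η) ^ 3 * X ^ (3 * η) := by
      have h1 : Real.log X ≤ X ^ η / η := Real.log_le_rpow_div hN0.le hη0
      have h2 : 1 ≤ X ^ η := Real.one_le_rpow hNr1 hη0.le
      have h3 : 1 + Real.log T ≤ (1 + A / η) * X ^ η := by
        have h4 : A * Real.log X ≤ A * (X ^ η / η) := mul_le_mul_of_nonneg_left h1 (by linarith)
        have h5 : (1 + A / η) * X ^ η = X ^ η + A * (X ^ η / η) := by ring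
        linarith
      calc (1 + Real.log T) ^ 3 ≤ ((1 + A / η) * X ^ η) ^ 3 :=
            pow_le_pow_left₀ (by linarith) h3 3
        _ = (1 + A / η) ^ 3 * X ^ (3 * η) := by
            rw [mul_pow, ← Real.rpow_natCast (X ^ η), ← Real.rpow_mul hN0.le]
            congr 2
            push_cast
            ring
    have b5 : Δ ^ (2 * K) = Cd' ^ (2 * K) * X ^ (ε / 4) := by
      rw [hΔ, mul_pow, ← Real.rpow_natCast (X ^ (A * η')), ← Real.rpow_mul hN0.le]
      congr 2
      push_cast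
      exact hη'K
    have b6 : (2 * (y : ℝ) ^ J * (M * y)) ^ q ≤ 2 ^ q * X ^ (q * (δ * J + (1 / s + δ))) := by
      have h1 : (y : ℝ) ^ J ≤ X ^ (δ * J) := by
        calc (y : ℝ) ^ J ≤ (X ^ δ) ^ J := pow_le_pow_left₀ (by linarith) hyδ J
          _ = X ^ (δ * J) := by rw [← Real.rpow_natCast, ← Real.rpow_mul hN0.le]
      calc (2 * (y : ℝ) ^ J * (M * y)) ^ q ≤ (2 * X ^ (δ * J) * X ^ (1 / (s : ℝ) + δ)) ^ q := by
            apply Real.rpow_le_rpow (by positivity) _ hq0.le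
            apply mul_le_mul _ hMy hMy0 (by positivity)
            exact mul_le_mul_of_nonneg_left h1 (by norm_num)
        _ = 2 ^ q * X ^ (q * (δ * J + (1 / s + δ))) := by
            rw [mul_assoc, ← Real.rpow_add hN0, Real.mul_rpow (by norm_num) (by positivity),
              ← Real.rpow_mul hN0.le]
            congr 2
            ring
    set Z : ℝ := X ^ q + T * X ^ (q / 2) with hZ
    have hZ0 : 0 ≤ Z := by positivity
    have hWW : WW C η Δ M N T y J K q ≤ C ^ q * X ^ (η * q) *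
        (30 * X ^ (2 * (1 / (s : ℝ) + δ)) * ((1 + A / η) ^ 3 * X ^ (3 * η)) *
          (Cd' ^ (2 * K) * X ^ (ε / 4)) * (2 ^ q * X ^ (q * (δ * J + (1 / s + δ)))) * Z) := by
      unfold WW
      rw [b2, b5]
      gcongr
    have hW0 : 0 ≤ WW C η Δ M N T y J K q :=
      WW_nonneg (by linarith) (by linarith) (by linarith) hT1
    have hVκ : 0 ≤ V ^ (30 * q ^ 2 / ε) := by positivity
    have hfin : WW C η Δ M N T y J K q ≤ c0 * X ^ ε * Z := by
      calc WW C η Δ M N T y J K q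
          ≤ C ^ q * X ^ (η * q) *
            (30 * X ^ (2 * (1 / (s : ℝ) + δ)) * ((1 + A / η) ^ 3 * X ^ (3 * η)) *
            (Cd' ^ (2 * K) * X ^ (ε / 4)) * (2 ^ q * X ^ (q * (δ * J + (1 / s + δ)))) * Z) := hWW
        _ = c0 * X ^ (η * q + 2 * (1 / (s : ℝ) + δ) + 3 * η + ε / 4 +
            q * (δ * J + (1 / s + δ))) * Z := by
            rw [Real.rpow_add hN0, Real.rpow_add hN0, Real.rpow_add hN0, Real.rpow_add hN0, hc0]
            ring
        _ ≤ c0 * X ^ ε * Z := by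
            apply mul_le_mul_of_nonneg_right _ hZ0
            apply mul_le_mul_of_nonneg_left _ hc00
            apply Real.rpow_le_rpow_of_exponent_le hNr1
            rw [hJr]
            have e1 : η * q + 2 * (1 / (s : ℝ) + δ) + 3 * η + ε / 4 +
                q * (δ * (2 * s) + (1 / s + δ)) = δ * E0 + η * (q + 3) + (2 + q) / s + ε / 4 := by
              rw [hE0]
              ring
            rw [e1]
            linarith
    have hcomm : X ^ q + X ^ (q / 2) * (T : ℝ) = Z := by rw [hZ]; ring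
    rw [hcomm]
    have hmκ : 0 ≤ ((m : ℝ) + 1) ^ (30 * q ^ 2 / ε) := by positivity
    calc ((m : ℝ) + 1) ^ (q * ((J + 1 : ℕ) : ℝ)) * V ^ (q * (((J + 1 : ℕ) : ℝ) + 1)) *
        WW C η Δ M N T y J K q
        ≤ (((m : ℝ) + 1) ^ (30 * q ^ 2 / ε) * V ^ (30 * q ^ 2 / ε)) *
        WW C η Δ M N T y J K q := by
          apply mul_le_mul_of_nonneg_right _ hW0
          exact mul_le_mul b1 b0 (by positivity) (by positivity)
      _ = (((m : ℝ) + 1) * V) ^ (30 * q ^ 2 / ε) * WW C η Δ M N T y J K q := by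
          rw [Real.mul_rpow (by linarith) (by linarith)]
      _ ≤ (((m : ℝ) + 1) * V) ^ (30 * q ^ 2 / ε) * (c0 * X ^ ε * Z) :=
          mul_le_mul_of_nonneg_left hfin (by positivity)
      _ = c0 * (((m : ℝ) + 1) * V) ^ (30 * q ^ 2 / ε) * X ^ ε * Z := by ring
      _ ≤ (c0 + 4 ^ q) * (((m : ℝ) + 1) * V) ^ (30 * q ^ 2 / ε) * X ^ ε * Z := by
          apply mul_le_mul_of_nonneg_right _ hZ0
          apply mul_le_mul_of_nonneg_right _ (by positivity)
          apply mul_le_mul_of_nonneg_right _ (by positivity)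
          have : (0 : ℝ) ≤ 4 ^ q := by positivity
          linarith

end Pool.Agent.K6.H58.SC
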