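import Mathlib
import Pool.Agent.K6.H58.SC.Cor2

/-!
# Montgomery's `ℓ^q` conjecture for convolutions of short sequences

Let `b = G * F_0 * ⋯ * F_(m-1)` (Dirichlet convolution), where `G` is an arbitrary sequence bounded
by one and supported on integers `r` with `r ^ (k + 1) ≤ T`, `k = ⌊log T / log N⌋` (for instance on
`r ≤ √N`), and the `F_i` are arbitrary sequences supported on `[1, N ^ δ]`,
`δ = ε ^ 2 / (512 q ^ 2)`. The inequality of Q1 holds for `D(t) = ∑_{N ≤ n ≤ 2N} b_n n ^ (i t)`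
with the loss `N ^ ε`, for all `T ≤ N ^ A`, in three situations:

1. `m ≤ N ^ δ` and the convolutions of the absolute values of consecutive `F_i` are at most `N ^ δ`;
2. `m` is bounded and all `F_i` are bounded by one;
3. the primes are divided into classes `0, …, m`, with `m ≤ N ^ δ`, and `b_n` is the product of
   arbitrary bounded functions of the parts of `n` composed of the primes of one class, the parts
   in the classes `1, …, m` being at most `N ^ δ`.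
-/

set_option autoImplicit false

namespace Pool.Agent.K6.H58.SC.Kept

open Finset

/-- `∑_{t ≤ T} |∑_{N ≤ n ≤ 2N} b n n ^ (i t)| ^ q` -/
noncomputable def moment (q : ℝ) (N T : ℕ) (b : ℕ → ℂ) : ℝ :=
  ∑ t ∈ Icc 1 T, ‖∑ n ∈ Icc N (2 * N),
    b n * Complex.exp (Complex.I * (t : ℂ) * ((Real.log (n : ℝ) : ℝ) : ℂ))‖ ^ q

/-- the sequence of the absolute values -/
noncomputable def absValue (X : ArithmeticFunction ℂ) : ArithmeticFunction ℝ :=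
  ⟨fun n => ‖X n‖, by simp⟩

/-- the part of `n` composed of the primes `p` of class `c p = i` -/
def part (c : ℕ → ℕ) (i n : ℕ) : ℕ :=
  ∏ p ∈ n.primeFactors.filter (fun p => c p = i), p ^ n.factorization p

/-- bounded by one and supported on integers `r` with `r ^ (k + 1) ≤ T`, `k = ⌊log T / log N⌋` -/
def IsLong (N T : ℕ) (G : ℕ → ℂ) : Prop :=
  (∀ n, ‖G n‖ ≤ 1) ∧ ∀ n, G n ≠ 0 → n ^ (Nat.log N T + 1) ≤ T

/-- the exponent `δ` -/
noncomputable def delta (q ε : ℝ) : ℝ := ε ^ 2 / (512 * q ^ 2)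

open Classical in
theorem result (q A ε : ℝ) (hq : 1 ≤ q) (hA : 1 ≤ A) (hε : 0 < ε) (hε1 : ε ≤ 1) :
    -- 1. many factors
    (∃ K : ℝ, ∀ N T m : ℕ, 1 ≤ N → N ≤ T → (T : ℝ) ≤ (N : ℝ) ^ A →
      (m : ℝ) ≤ (N : ℝ) ^ delta q ε →
      ∀ (G : ArithmeticFunction ℂ) (F : ℕ → ArithmeticFunction ℂ), IsLong N T G →
        (∀ i < m, ∀ n, F i n ≠ 0 → (n : ℝ) ≤ (N : ℝ) ^ delta q ε) →
        (∀ z w n, z ≤ w → w ≤ m →
          (∏ i ∈ Ico z w, absValue (F i)) n ≤ (N : ℝ) ^ delta q ε) →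
        moment q N T (fun n => (G * ∏ i ∈ range m, F i) n) ≤
          K * (N : ℝ) ^ ε * ((N : ℝ) ^ q + (N : ℝ) ^ (q / 2) * (T : ℝ))) ∧
    -- 2. boundedly many factors
    (∀ R : ℕ, ∃ K : ℝ, ∀ N T : ℕ, 1 ≤ N → N ≤ T → (T : ℝ) ≤ (N : ℝ) ^ A →
      ∀ (G : ArithmeticFunction ℂ) (F : ℕ → ArithmeticFunction ℂ), IsLong N T G →
        (∀ i < R, ∀ n, ‖F i n‖ ≤ 1) →
        (∀ i < R, ∀ n, F i n ≠ 0 → (n : ℝ) ≤ (N : ℝ) ^ delta q ε) →
        moment q N T (fun n => (G * ∏ i ∈ range R, F i) n) ≤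
          K * (N : ℝ) ^ ε * ((N : ℝ) ^ q + (N : ℝ) ^ (q / 2) * (T : ℝ))) ∧
    -- 3. functions of the parts of `n` in the classes of a partition of the primes
    (∃ K : ℝ, ∀ N T m : ℕ, 1 ≤ N → N ≤ T → (T : ℝ) ≤ (N : ℝ) ^ A →
      (m : ℝ) ≤ (N : ℝ) ^ delta q ε →
      ∀ (c : ℕ → ℕ) (h : ℕ → ℕ → ℂ) (b : ℕ → ℂ), (∀ p, c p ≤ m) → (∀ i n, ‖h i n‖ ≤ 1) →
        (∀ n, n ≠ 0 → b n = if part c 0 n ^ (Nat.log N T + 1) ≤ T ∧
          (∀ i, 1 ≤ i → i ≤ m → (part c i n : ℝ) ≤ (N : ℝ) ^ delta q ε)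
          then ∏ i ∈ range (m + 1), h i (part c i n) else 0) →
        moment q N T b ≤ K * (N : ℝ) ^ ε * ((N : ℝ) ^ q + (N : ℝ) ^ (q / 2) * (T : ℝ))) := by
  refine ⟨?_, ?_, ?_⟩
  · obtain ⟨K, hK⟩ := Pool.Agent.K6.H58.SC.many q A ε hq hA hε hε1
    refine ⟨K, fun N T m h1 h2 h3 h4 G F hG hF hFV => ?_⟩
    exact hK N T m h1 h2 h3 h4 G F hG.1 hG.2 hF hFV
  · intro R
    obtain ⟨K, hK⟩ := Pool.Agent.K6.H58.SC.bounded q A ε hq hA hε hε1 R
    refine ⟨K, fun N T h1 h2 h3 G F hG hF1 hF => ?_⟩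
    exact hK N T h1 h2 h3 G F hG.1 hG.2 hF1 hF
  · obtain ⟨K, hK⟩ := Pool.Agent.K6.H58.SC.classes q A ε hq hA hε hε1
    refine ⟨K, fun N T m h1 h2 h3 h4 c h b hc hh hb => ?_⟩
    exact hK N T m h1 h2 h3 h4 c h b hc hh hb

end Pool.Agent.K6.H58.SC.Kept
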